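import Pool.Agent.H168DD.TB

/-!
# The covering lemma
-/

namespace Pool.Agent.H115F

open Finset

/-- vertices: pairs (flag, level) -/
abbrev W (d : ℕ) := ZMod 3 × Fin d

theorem three_zmod (j : ZMod 3) : j + 1 + 1 + 1 = j := by revert j; decide

theorem ne_one (j : ZMod 3) : j ≠ j + 1 := by revert j; decide

theorem ne_two (j : ZMod 3) : j ≠ j + 1 + 1 := by revert j; decide

section

variable {d : ℕ} (s : W d → W d) (hs : Function.Injective s) (hs1 : ∀ v, (s v).1 = v.1 + 1)

include hs hs1 in
/-- a set invariant under `s` has the same number of elements in every flag -/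
theorem card_inv (O : Finset (W d)) (hO : O.image s = O) (j : ZMod 3) :
    (O.filter (fun v => v.1 = j + 1)).card = (O.filter (fun v => v.1 = j)).card := by
  classical
  rw [← Finset.card_image_of_injective (O.filter (fun v => v.1 = j)) hs]
  congr 1
  ext w
  simp only [mem_filter, mem_image]
  constructor
  · rintro ⟨hw, hj⟩
    rw [← hO] at hw
    obtain ⟨v, hv, rfl⟩ := mem_image.1 hw
    refine ⟨v, ⟨hv, ?_⟩, rfl⟩
    rw [hs1] at hj
    exact add_right_cancel hj
  · rintro ⟨v, ⟨hv, hj⟩, rfl⟩
    refine ⟨?_, by rw [hs1, hj]⟩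
    rw [← hO]
    exact mem_image_of_mem _ hv

include hs hs1 in
theorem card_inv_three (O : Finset (W d)) (hO : O.image s = O) (j : ZMod 3) :
    O.card = 3 * (O.filter (fun v => v.1 = j)).card := by
  classical
  have h0 := card_inv s hs hs1 O hO 0
  have h1 := card_inv s hs hs1 O hO 1
  have h2 := card_inv s hs hs1 O hO 2
  have e0 : (0 : ZMod 3) + 1 = 1 := by decide
  have e1 : (1 : ZMod 3) + 1 = 2 := by decide
  have e2 : (2 : ZMod 3) + 1 = 0 := by decide
  rw [e0] at h0
  rw [e1] at h1
  rw [e2] at h2
  have hsum : O.card = ∑ j : ZMod 3, (O.filter (fun v => v.1 = j)).card :=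
    Finset.card_eq_sum_card_fiberwise (fun v _ => mem_univ _)
  have huniv : (Finset.univ : Finset (ZMod 3)) = {0, 1, 2} := by decide
  rw [huniv, Finset.sum_insert (by decide), Finset.sum_insert (by decide),
    Finset.sum_singleton] at hsum
  have hj : j = 0 ∨ j = 1 ∨ j = 2 := by revert j; decide
  rcases hj with rfl | rfl | rfl <;> omega

variable (G : SimpleGraph (W d)) (hadj : ∀ v, G.Adj v (s v)) (good : W d → Prop)
  (hgs : ∀ v, good v → good (s v)) (low : W d → W d)
  (hlow1 : ∀ v, s (s (s v)) = v → ¬ good v → (low v).1 = v.1 ∧ low v ≠ v ∧ G.Adj (low v) (s v))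
  (hlow2 : ∀ v w, s (s (s v)) = v → ¬ good v → s (s (s w)) = w → ¬ good w → v ≠ w →
    low v = low w → ∃ x y, (x = s v ∨ x = s (s v)) ∧ (y = s w ∨ y = s (s w)) ∧ G.Adj x y)

/-- closed families -/
def Fam (T : Finset (W d)) (A : Finset (W d)) (F : Finset (Finset (W d))) : Prop :=
  (∀ O ∈ F, Odd O.card) ∧ (∀ O ∈ F, ∀ O' ∈ F, O ≠ O' → Disjoint O O') ∧
    (∀ O ∈ F, O ⊆ T \ A) ∧ (∀ O ∈ F, ∀ x ∈ O, ∀ y ∈ T, G.Adj x y → y ∈ O ∨ y ∈ A)

open Classical in
include hs hs1 hadj hgs hlow1 hlow2 in
theorem main_ineq (A : Finset (W d)) (F : Finset (Finset (W d)))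
    (hA : A ⊆ univ.filter (fun v => ¬ good v))
    (hF : Fam G (univ.filter (fun v => ¬ good v)) A F) :
    9 * F.card ≤ 9 * A.card + (univ.filter (fun v => ¬ good v)).card +
      4 * (univ.filter (fun v => good v)).card := by
  classical
  set T := univ.filter (fun v => ¬ good v) with hT
  obtain ⟨hodd, hdisj, hsub, hclos⟩ := hF
  have hTmem : ∀ v, v ∈ T ↔ ¬ good v := by intro v; simp [hT]
  have hsurj : Function.Surjective s := Finite.surjective_of_injective hs
  set F1 := F.filter (fun O => ∃ v ∈ A, s v ∈ O) with hF1
  set F2 := F.filter (fun O => ¬ ∃ v ∈ A, s v ∈ O) with hF2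
  have hF12 : F1.card + F2.card = F.card := Finset.card_filter_add_card_filter_not _
  set F3 := F2.filter (fun O => O.card = 3) with hF3
  set F9 := F2.filter (fun O => ¬ O.card = 3) with hF9
  have hF39 : F3.card + F9.card = F2.card := Finset.card_filter_add_card_filter_not _
  -- (a)
  have ha : F1.card ≤ A.card := by
    apply Finset.card_le_card_of_forall_subsingleton (fun O v => s v ∈ O)
    · intro O hO; exact (mem_filter.1 hO).2
    · intro v _ O hO O' hO'
      by_contra hne
      exact Finset.disjoint_left.1 (hdisj O (mem_filter.1 hO.1).1 O' (mem_filter.1 hO'.1).1 hne)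
        hO.2 hO'.2
  -- (b)
  have hinv : ∀ O ∈ F2, O.image s = O := by
    intro O hO
    obtain ⟨hOF, hO2⟩ := mem_filter.1 hO
    push Not at hO2
    symm
    apply Finset.eq_of_subset_of_card_le
    · intro w hw
      obtain ⟨v, rfl⟩ := hsurj w
      refine mem_image.2 ⟨v, ?_, rfl⟩
      have hwT := (mem_sdiff.1 (hsub O hOF hw)).1
      have hvT : v ∈ T := by
        rw [hTmem] at hwT ⊢
        exact fun h => hwT (hgs v h)
      rcases hclos O hOF _ hw v hvT (hadj v).symm with h | h
      · exact h
      · exact absurd hw (hO2 v h)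
    · exact Finset.card_image_le
  have hsmem : ∀ O ∈ F2, ∀ v ∈ O, s v ∈ O := by
    intro O hO v hv
    have := mem_image_of_mem s hv
    rwa [hinv O hO] at this
  have hone : ∀ O ∈ F3, ∀ v ∈ O, ∀ w ∈ O, v.1 = w.1 → v = w := by
    intro O hO v hv w hw hvw
    obtain ⟨hO2, hO3⟩ := mem_filter.1 hO
    have hc := card_inv_three s hs hs1 O (hinv O hO2) v.1
    rw [hO3] at hc
    have hc1 : (O.filter (fun u => u.1 = v.1)).card ≤ 1 := by omega
    rw [Finset.card_le_one] at hc1
    exact hc1 v (mem_filter.2 ⟨hv, rfl⟩) w (mem_filter.2 ⟨hw, hvw.symm⟩)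
  have hthree : ∀ O ∈ F3, ∀ v ∈ O, s (s (s v)) = v := by
    intro O hO v hv
    have hO2 := (mem_filter.1 hO).1
    refine hone O hO _ (hsmem O hO2 _ (hsmem O hO2 _ (hsmem O hO2 v hv))) v hv ?_
    rw [hs1, hs1, hs1, three_zmod]
  have hF3F : ∀ O ∈ F3, O ∈ F := fun O hO => (mem_filter.1 (mem_filter.1 hO).1).1
  have hbadv : ∀ O ∈ F3, ∀ v ∈ O, ¬ good v := fun O hO v hv =>
    (hTmem v).1 (mem_sdiff.1 (hsub O (hF3F O hO) hv)).1
  -- (d)
  have hd : 3 * F3.card ≤ A.card + (univ.filter (fun v => good v)).card := by
    have hB : (F3.biUnion id).card = 3 * F3.card := by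
      rw [Finset.card_biUnion]
      · simp only [id]
        rw [Finset.sum_congr rfl (fun O hO => (mem_filter.1 hO).2 : ∀ O ∈ F3, O.card = 3),
          Finset.sum_const, smul_eq_mul, mul_comm]
      · intro O hO O' hO' hne
        exact hdisj O (hF3F O hO) O' (hF3F O' hO') hne
    have hle : (F3.biUnion id).card ≤ (A ∪ univ.filter (fun v => good v)).card := by
      apply Finset.card_le_card_of_injOn low
      · intro v hv
        obtain ⟨O, hO, hvO⟩ := mem_biUnion.1 (Finset.mem_coe.1 hv)
        simp only [id] at hvO
        have hO2 := (mem_filter.1 hO).1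
        obtain ⟨l1, l2, l3⟩ := hlow1 v (hthree O hO v hvO) (hbadv O hO v hvO)
        rw [Finset.mem_coe, mem_union]
        by_cases hg : good (low v)
        · exact Or.inr (mem_filter.2 ⟨mem_univ _, hg⟩)
        · left
          rcases hclos O (hF3F O hO) (s v) (hsmem O hO2 v hvO) (low v) ((hTmem _).2 hg) l3.symm
            with h | h
          · exact absurd (hone O hO _ h v hvO l1) l2
          · exact h
      · intro v hv w hw he
        obtain ⟨O, hO, hvO⟩ := mem_biUnion.1 (Finset.mem_coe.1 hv)
        obtain ⟨O', hO', hwO⟩ := mem_biUnion.1 (Finset.mem_coe.1 hw)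
        simp only [id] at hvO hwO
        by_contra hne
        have hO2 := (mem_filter.1 hO).1
        have hO2' := (mem_filter.1 hO').1
        obtain ⟨x, y, hx, hy, hxy⟩ := hlow2 v w (hthree O hO v hvO) (hbadv O hO v hvO)
          (hthree O' hO' w hwO) (hbadv O' hO' w hwO) hne he
        have hxO : x ∈ O := by
          rcases hx with rfl | rfl
          · exact hsmem O hO2 v hvO
          · exact hsmem O hO2 _ (hsmem O hO2 v hvO)
        have hyO : y ∈ O' := by
          rcases hy with rfl | rfl
          · exact hsmem O' hO2' w hwO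
          · exact hsmem O' hO2' _ (hsmem O' hO2' w hwO)
        have hyTA := mem_sdiff.1 (hsub O' (hF3F O' hO') hyO)
        have hyO1 : y ∈ O := (hclos O (hF3F O hO) x hxO y hyTA.1 hxy).resolve_right hyTA.2
        have hOO : O = O' := by
          by_contra hn
          exact Finset.disjoint_left.1 (hdisj O (hF3F O hO) O' (hF3F O' hO') hn) hyO1 hyO
        subst hOO
        have l1 := (hlow1 v (hthree O hO v hvO) (hbadv O hO v hvO)).1
        have l2 := (hlow1 w (hthree O hO w hwO) (hbadv O hO w hwO)).1
        apply hne
        apply hone O hO v hvO w hwO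
        rw [← l1, ← l2, he]
    have := hle.trans (Finset.card_union_le _ _)
    omega
  -- (e)
  have he : A.card + ∑ O ∈ F, O.card ≤ T.card := by
    have h1 : (F.biUnion id).card = ∑ O ∈ F, O.card := by
      rw [Finset.card_biUnion]
      · rfl
      · intro O hO O' hO' hne
        exact hdisj O hO O' hO' hne
    rw [← h1, ← Finset.card_union_of_disjoint]
    · apply Finset.card_le_card
      intro v hv
      rcases mem_union.1 hv with h | h
      · exact hA h
      · obtain ⟨O, hO, hvO⟩ := mem_biUnion.1 h
        exact (mem_sdiff.1 (hsub O hO hvO)).1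
    · rw [Finset.disjoint_left]
      intro v hv hv'
      obtain ⟨O, hO, hvO⟩ := mem_biUnion.1 hv'
      exact (mem_sdiff.1 (hsub O hO hvO)).2 hv
  have hsum : ∑ O ∈ F, O.card = ∑ O ∈ F1, O.card + (∑ O ∈ F3, O.card + ∑ O ∈ F9, O.card) := by
    rw [hF3, hF9, Finset.sum_filter_add_sum_filter_not, hF1, hF2,
      Finset.sum_filter_add_sum_filter_not]
  have hs1' : F1.card ≤ ∑ O ∈ F1, O.card := by
    calc F1.card = ∑ _O ∈ F1, 1 := by simp
      _ ≤ _ := by
          apply Finset.sum_le_sum
          intro O hO
          obtain ⟨k, hk⟩ := hodd O (mem_filter.1 hO).1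
          omega
  have hs3' : 3 * F3.card = ∑ O ∈ F3, O.card := by
    rw [Finset.sum_congr rfl (fun O hO => (mem_filter.1 hO).2 : ∀ O ∈ F3, O.card = 3),
      Finset.sum_const, smul_eq_mul, mul_comm]
  have hs9' : 9 * F9.card ≤ ∑ O ∈ F9, O.card := by
    calc 9 * F9.card = ∑ _O ∈ F9, 9 := by rw [Finset.sum_const, smul_eq_mul, mul_comm]
      _ ≤ _ := by
          apply Finset.sum_le_sum
          intro O hO
          obtain ⟨hO2, hO3⟩ := mem_filter.1 hO
          obtain ⟨k, hk⟩ := hodd O (mem_filter.1 hO2).1
          have := card_inv_three s hs hs1 O (hinv O hO2) 0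
          omega
  omega

open Classical in
include hs hs1 hadj hgs hlow1 hlow2 in
/-- The covering lemma. -/
theorem cover_bound (hg3 : ∀ v, good v → s (s (s v)) = v) :
    ∃ P : Finset (Finset (W d)),
      (∀ p ∈ P, (∃ v, p = {v}) ∨ (∃ v w, G.Adj v w ∧ p = {v, w}) ∨
        (∃ v, good v ∧ p = {v, s v, s (s v)})) ∧
      (∀ v, ∃ p ∈ P, v ∈ p) ∧ 3 * P.card ≤ 5 * d := by
  classical
  set T := univ.filter (fun v => ¬ good v) with hT
  set Γ := univ.filter (fun v => good v) with hΓ
  have hTΓ : Γ.card + T.card = 3 * d := by
    rw [hT, hΓ, Finset.card_filter_add_card_filter_not, Finset.card_univ, Fintype.card_prod,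
      ZMod.card, Fintype.card_fin]
  have hineq : ∀ A F, A ⊆ T → Fam G T A F → 9 * F.card ≤ 9 * A.card + T.card + 4 * Γ.card :=
    fun A F hA hF => main_ineq s hs hs1 G hadj good hgs low hlow1 hlow2 A F hA hF
  -- choice of l
  obtain ⟨l, hl9, heven, hcond⟩ : ∃ l, 9 * l ≤ T.card + 4 * Γ.card ∧ Even (T.card + l) ∧
      ∀ A F, A ⊆ T → Fam G T A F → F.card ≤ A.card + l := by
    by_cases hev : Even (T.card + (T.card + 4 * Γ.card) / 9)
    · refine ⟨_, ?_, hev, ?_⟩
      · omega
      · intro A F hA hF
        have := hineq A F hA hF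
        omega
    · rw [Nat.not_even_iff_odd] at hev
      -- extension of a family
      have hext : ∀ A F, A ⊆ T → Fam G T A F → F.card ≠ A.card + (T.card + 4 * Γ.card) / 9 := by
        intro A F hA hF hcard
        obtain ⟨hodd, hdisj, hsub, hclos⟩ := hF
        set R := (T \ A) \ F.biUnion id with hR
        have hbsub : F.biUnion id ⊆ T \ A := by
          intro v hv
          obtain ⟨O, hO, hvO⟩ := mem_biUnion.1 hv
          exact hsub O hO hvO
        have hRcard : R.card + (F.biUnion id).card + A.card = T.card := by
          have h1 : R.card + _ = _ := Finset.card_sdiff_add_card_eq_card hbsub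
          have h2 := Finset.card_sdiff_add_card_eq_card hA
          omega
        have hpar : ∀ F' ⊆ F, (F'.biUnion id).card % 2 = F'.card % 2 := by
          intro F'
          induction F' using Finset.induction_on with
          | empty => intro _; simp
          | insert O F' hO ih =>
            intro hss
            rw [Finset.biUnion_insert, Finset.card_union_of_disjoint, Finset.card_insert_of_notMem hO]
            · have h1 := ih ((subset_insert _ _).trans hss)
              have h2 := hodd O (hss (mem_insert_self _ _))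
              rw [Nat.odd_iff] at h2
              simp only [id]
              omega
            · rw [Finset.disjoint_left]
              intro v hv hv'
              obtain ⟨O', hO', hvO'⟩ := mem_biUnion.1 hv'
              have hne : O ≠ O' := by rintro rfl; exact hO hO'
              exact Finset.disjoint_left.1 (hdisj O (hss (mem_insert_self _ _)) O'
                (hss (mem_insert_of_mem hO')) hne) hv hvO'
        have hRodd : Odd R.card := by
          have := hpar F (subset_refl _)
          rw [Nat.odd_iff] at hev ⊢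
          omega
        have hRF : R ∉ F := by
          intro hRF
          obtain ⟨k, hk⟩ := hRodd
          obtain ⟨v, hv⟩ := Finset.card_pos.1 (by omega : 0 < R.card)
          exact (mem_sdiff.1 hv).2 (mem_biUnion.2 ⟨R, hRF, hv⟩)
        have hRdisj : ∀ O ∈ F, Disjoint R O := by
          intro O hO
          rw [Finset.disjoint_left]
          intro v hv hvO
          exact (mem_sdiff.1 hv).2 (mem_biUnion.2 ⟨O, hO, hvO⟩)
        have hfam : Fam G T A (insert R F) := by
          refine ⟨?_, ?_, ?_, ?_⟩
          · intro O hO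
            rcases mem_insert.1 hO with rfl | hO
            · exact hRodd
            · exact hodd O hO
          · intro O hO O' hO' hne
            rcases mem_insert.1 hO with h | hO
            · rcases mem_insert.1 hO' with h' | hO'
              · exact absurd (h.trans h'.symm) hne
              · rw [h]; exact hRdisj O' hO'
            · rcases mem_insert.1 hO' with h' | hO'
              · rw [h']; exact (hRdisj O hO).symm
              · exact hdisj O hO O' hO' hne
          · intro O hO
            rcases mem_insert.1 hO with rfl | hO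
            · exact sdiff_subset
            · exact hsub O hO
          · intro O hO x hx y hy hxy
            rcases mem_insert.1 hO with h | hO
            · rw [h] at hx ⊢
              by_contra hcon
              push Not at hcon
              obtain ⟨h1, h2⟩ := hcon
              have hyb : y ∈ F.biUnion id := by
                by_contra hb
                exact h1 (mem_sdiff.2 ⟨mem_sdiff.2 ⟨hy, h2⟩, hb⟩)
              obtain ⟨O', hO', hyO'⟩ := mem_biUnion.1 hyb
              have hx1 := mem_sdiff.1 hx
              have hx2 := mem_sdiff.1 hx1.1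
              rcases hclos O' hO' y hyO' x hx2.1 hxy.symm with h | h
              · exact hx1.2 (mem_biUnion.2 ⟨O', hO', h⟩)
              · exact hx2.2 h
            · exact hclos O hO x hx y hy hxy
        have := hineq A (insert R F) hA hfam
        rw [Finset.card_insert_of_notMem hRF] at this
        omega
      have hfam0 : Fam G T ∅ ∅ := by
        refine ⟨?_, ?_, ?_, ?_⟩ <;> simp
      have h0 := hext ∅ ∅ (empty_subset _) hfam0
      simp only [card_empty] at h0
      refine ⟨(T.card + 4 * Γ.card) / 9 - 1, by omega, ?_, ?_⟩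
      · rw [Nat.odd_iff] at hev
        rw [Nat.even_iff]
        omega
      · intro A F hA hF
        have h1 := hext A F hA hF
        have h2 := hineq A F hA hF
        omega
  obtain ⟨U, m, hUT, hUl, hm⟩ := H168DD.tutte_berge G T l heven
    (fun A F hA h1 h2 h3 h4 => hcond A F hA ⟨h1, h2, h3, h4⟩)
  refine ⟨(U.image (fun v => {v})) ∪ ((T \ U).image (fun v => {v, m v})) ∪
    (Γ.image (fun v => {v, s v, s (s v)})), ?_, ?_, ?_⟩
  · intro p hp
    rcases mem_union.1 hp with hp | hp
    · rcases mem_union.1 hp with hp | hp
      · obtain ⟨v, _, rfl⟩ := mem_image.1 hp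
        exact Or.inl ⟨v, rfl⟩
      · obtain ⟨v, hv, rfl⟩ := mem_image.1 hp
        exact Or.inr (Or.inl ⟨v, m v, (hm v hv).2.2, rfl⟩)
    · obtain ⟨v, hv, rfl⟩ := mem_image.1 hp
      exact Or.inr (Or.inr ⟨v, (mem_filter.1 hv).2, rfl⟩)
  · intro v
    by_cases hg : good v
    · exact ⟨_, mem_union_right _ (mem_image_of_mem _ (mem_filter.2 ⟨mem_univ _, hg⟩)),
        mem_insert_self _ _⟩
    · have hvT : v ∈ T := mem_filter.2 ⟨mem_univ _, hg⟩
      by_cases hU : v ∈ U
      · exact ⟨_, mem_union_left _ (mem_union_left _ (mem_image_of_mem _ hU)),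
          mem_singleton_self _⟩
      · exact ⟨_, mem_union_left _ (mem_union_right _
          (mem_image_of_mem _ (mem_sdiff.2 ⟨hvT, hU⟩))), mem_insert_self _ _⟩
  · have c1 : (U.image (fun v => ({v} : Finset (W d)))).card ≤ U.card := card_image_le
    have c2 : 2 * ((T \ U).image (fun v => ({v, m v} : Finset (W d)))).card ≤ (T \ U).card := by
      apply Finset.mul_card_image_le_card
      intro p hp
      obtain ⟨v, hv, rfl⟩ := mem_image.1 hp
      have hne : v ≠ m v := (hm v hv).2.2.ne
      calc 2 = ({v, m v} : Finset (W d)).card := (card_pair hne).symm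
        _ ≤ _ := by
            apply card_le_card
            intro w hw
            rcases mem_insert.1 hw with rfl | hw
            · exact mem_filter.2 ⟨hv, rfl⟩
            · rw [mem_singleton] at hw
              subst hw
              refine mem_filter.2 ⟨(hm v hv).1, ?_⟩
              show ({m v, m (m v)} : Finset (W d)) = {v, m v}
              rw [(hm v hv).2.1, Finset.pair_comm]
    have c3 : 3 * (Γ.image (fun v => ({v, s v, s (s v)} : Finset (W d)))).card ≤ Γ.card := by
      apply Finset.mul_card_image_le_card
      intro p hp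
      obtain ⟨v, hv, rfl⟩ := mem_image.1 hp
      have hgv := (mem_filter.1 hv).2
      have n1 : v ≠ s v := by
        intro h; exact ne_one v.1 (by rw [← hs1 v, ← h])
      have n2 : v ≠ s (s v) := by
        intro h; exact ne_two v.1 (by rw [← hs1 v, ← hs1 (s v), ← h])
      have n3 : s v ≠ s (s v) := by
        intro h; exact ne_one (s v).1 (by rw [← hs1 (s v), ← h])
      calc 3 = ({v, s v, s (s v)} : Finset (W d)).card := by
              rw [card_insert_of_notMem, card_pair n3]
              simp only [mem_insert, mem_singleton, not_or]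
              exact ⟨n1, n2⟩
        _ ≤ _ := by
            apply card_le_card
            intro w hw
            simp only [mem_insert, mem_singleton] at hw
            have e3 := hg3 v hgv
            rcases hw with rfl | rfl | rfl
            · exact mem_filter.2 ⟨hv, rfl⟩
            · refine mem_filter.2 ⟨mem_filter.2 ⟨mem_univ _, hgs _ hgv⟩, ?_⟩
              show ({s v, s (s v), s (s (s v))} : Finset (W d)) = {v, s v, s (s v)}
              rw [e3]
              ext z; simp only [mem_insert, mem_singleton]; tauto
            · refine mem_filter.2 ⟨mem_filter.2 ⟨mem_univ _, hgs _ (hgs _ hgv)⟩, ?_⟩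
              show ({s (s v), s (s (s v)), s (s (s (s v)))} : Finset (W d)) = {v, s v, s (s v)}
              rw [e3]
              ext z; simp only [mem_insert, mem_singleton]; tauto
    have c4 := Finset.card_sdiff_add_card_eq_card hUT
    have c5 := Finset.card_union_le ((U.image (fun v => ({v} : Finset (W d)))) ∪
      ((T \ U).image (fun v => ({v, m v} : Finset (W d)))))
      (Γ.image (fun v => ({v, s v, s (s v)} : Finset (W d))))
    have c6 := Finset.card_union_le (U.image (fun v => ({v} : Finset (W d))))
      ((T \ U).image (fun v => ({v, m v} : Finset (W d))))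
    omega

end

end Pool.Agent.H115F
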