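import Pool.Agent.H115F.Trans

/-!
# Flags of flats: levels, the Jordan-Hölder permutation and the lower vertices
-/

namespace Pool.Agent.H115F

open Set

variable {α : Type*} {M : Matroid α}

/-- `e` and `f` are parallel non-loops after contracting `G`. -/
def Par (M : Matroid α) (G : Set α) (e f : α) : Prop :=
  e ∉ M.closure G ∧ f ∉ M.closure G ∧ e ∈ M.closure (insert f G) ∧ f ∈ M.closure (insert e G)

theorem Par.symm {G : Set α} {e f : α} (h : Par M G e f) : Par M G f e :=
  ⟨h.2.1, h.1, h.2.2.2, h.2.2.1⟩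

theorem Par.of_mem {G : Set α} {e f : α} (h : e ∉ M.closure G) (h' : e ∈ M.closure (insert f G)) :
    Par M G e f := by
  have h1 := Matroid.closure_exchange (M := M) ⟨h', h⟩
  exact ⟨h, h1.2, h', h1.1⟩

theorem Par.mono {G G' : Set α} {e f : α} (h : Par M G e f) (hG : G ⊆ G')
    (he : e ∉ M.closure G') : Par M G' e f :=
  Par.of_mem he (M.closure_subset_closure (insert_subset_insert hG) h.2.2.1)

theorem Par.mem_iff {G H : Set α} {e f : α} (h : Par M G e f) (hH : Hyp M H) (hG : G ⊆ H) :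
    e ∈ H ↔ f ∈ H :=
  ⟨fun he => hH.closure_subset (insert_subset he hG) h.2.2.2,
    fun hf => hH.closure_subset (insert_subset hf hG) h.2.2.1⟩

/-- A complete flag of flats together with a basis adapted to it. -/
structure FlagData (M : Matroid α) (d : ℕ) (F : ℕ → Set α) (x : ℕ → α) : Prop where
  zero : F 0 = M.closure ∅
  top : F d = M.E
  mem : ∀ i < d, x i ∈ M.E
  notMem : ∀ i < d, x i ∉ F i
  succ : ∀ i < d, F (i + 1) = M.closure (insert (x i) (F i))

section FD

variable {d : ℕ} {F : ℕ → Set α} {x : ℕ → α}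

theorem FlagData.subset_ground (h : FlagData M d F x) {i : ℕ} (hi : i ≤ d) : F i ⊆ M.E := by
  cases i with
  | zero => rw [h.zero]; exact M.closure_subset_ground _
  | succ i => rw [h.succ i (by omega)]; exact M.closure_subset_ground _

theorem FlagData.step (h : FlagData M d F x) {i : ℕ} (hi : i < d) : F i ⊆ F (i + 1) := by
  rw [h.succ i hi]
  exact (subset_insert _ _).trans
    (M.subset_closure _ (insert_subset (h.mem i hi) (h.subset_ground hi.le)))

theorem FlagData.el_mem (h : FlagData M d F x) {i : ℕ} (hi : i < d) : x i ∈ F (i + 1) := by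
  rw [h.succ i hi]
  exact M.subset_closure _ (insert_subset (h.mem i hi) (h.subset_ground hi.le)) (mem_insert _ _)

theorem FlagData.mono (h : FlagData M d F x) {i k : ℕ} (hik : i ≤ k) (hk : k ≤ d) : F i ⊆ F k := by
  induction k with
  | zero =>
    have : i = 0 := by omega
    rw [this]
  | succ k ih =>
    rcases Nat.lt_or_ge i (k + 1) with h1 | h1
    · exact (ih (by omega) (by omega)).trans (h.step (by omega))
    · have : i = k + 1 := by omega
      rw [this]

theorem FlagData.el_mem_of_lt (h : FlagData M d F x) {i k : ℕ} (hik : i < k) (hk : k ≤ d) :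
    x i ∈ F k := h.mono hik hk (h.el_mem (by omega))

/-- the level of an element above a set -/
def Lev (M : Matroid α) (F : ℕ → Set α) (G : Set α) (e : α) (i : ℕ) : Prop :=
  e ∉ M.closure (G ∪ F i) ∧ e ∈ M.closure (G ∪ F (i + 1))

theorem FlagData.exists_lev (h : FlagData M d F x) {G : Set α} {e : α} (he : e ∈ M.E)
    (heG : e ∉ M.closure G) : ∃ i < d, Lev M F G e i := by
  classical
  have hd : e ∈ M.closure (G ∪ F d) := by
    rw [h.top]
    exact M.closure_subset_closure subset_union_right (by rw [M.closure_ground]; exact he)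
  have hex : ∃ i, e ∈ M.closure (G ∪ F i) := ⟨d, hd⟩
  have h0 : Nat.find hex ≠ 0 := by
    intro h0
    have := Nat.find_spec hex
    rw [h0, h.zero, M.closure_union_closure_right_eq, union_empty] at this
    exact heG this
  obtain ⟨k, hk⟩ := Nat.exists_eq_succ_of_ne_zero h0
  refine ⟨k, ?_, ?_, ?_⟩
  · have := Nat.find_min' hex hd
    omega
  · exact Nat.find_min hex (by omega)
  · have := Nat.find_spec hex
    rwa [hk] at this

theorem FlagData.lev_lt (h : FlagData M d F x) {G : Set α} {e : α} {i k : ℕ} (hi : i ≤ d)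
    (hl : Lev M F G e i) (hk : e ∈ M.closure (G ∪ F k)) : i < k := by
  by_contra hlt
  push Not at hlt
  exact hl.1 (M.closure_subset_closure (union_subset_union_right _ (h.mono hlt hi)) hk)

theorem FlagData.lev_unique (h : FlagData M d F x) {G : Set α} {e : α} {i k : ℕ} (hi : i ≤ d)
    (hk : k ≤ d) (hl : Lev M F G e i) (hl' : Lev M F G e k) : i = k := by
  have h1 := h.lev_lt hi hl hl'.2
  have h2 := h.lev_lt hk hl' hl.2
  omega

theorem FlagData.closure_succ (h : FlagData M d F x) (G : Set α) {i : ℕ} (hi : i < d) :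
    M.closure (G ∪ F (i + 1)) = M.closure (insert (x i) (G ∪ F i)) := by
  rw [h.succ i hi, M.closure_union_closure_right_eq]
  congr 1
  ext z; simp only [mem_union, mem_insert_iff]; tauto

theorem FlagData.lev_par (h : FlagData M d F x) {G : Set α} {e : α} {i : ℕ} (hi : i < d)
    (hl : Lev M F G e i) : Par M (G ∪ F i) e (x i) :=
  Par.of_mem hl.1 (by rw [← h.closure_succ G hi]; exact hl.2)

/-- the Jordan-Hölder relation is symmetric -/
theorem FlagData.lev_symm {F' : ℕ → Set α} {x' : ℕ → α} (h : FlagData M d F x)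
    (h' : FlagData M d F' x') {a b : ℕ} (ha : a < d) (hb : b < d)
    (hl : Lev M F' (F a) (x a) b) : Lev M F (F' b) (x' b) a := by
  have hp := h'.lev_par hb hl
  constructor
  · rw [union_comm]; exact hp.2.1
  · rw [h.closure_succ _ ha, union_comm]; exact hp.2.2.2

end FD

/-! ### Three flags -/

section Three

variable [M.Finite] {d : ℕ} (F : ZMod 3 → ℕ → Set α) (x : ZMod 3 → ℕ → α)

/-- the vertices: pairs (flag, level) -/
abbrev Vx (d : ℕ) := ZMod 3 × Fin d

/-- the flat below a vertex -/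
def fl (v : Vx d) : Set α := F v.1 v.2

/-- the element at a vertex -/
def el (v : Vx d) : α := x v.1 v.2

/-- `H` covers the vertex `v` -/
def Cv (M : Matroid α) (H : Set α) (v : Vx d) : Prop := Hyp M H ∧ fl F v ⊆ H ∧ el x v ∉ H

variable {F x}

theorem fl_subset (hF : ∀ j, FlagData M d (F j) (x j)) (v : Vx d) : fl F v ⊆ M.E :=
  (hF v.1).subset_ground v.2.2.le

theorem el_mem (hF : ∀ j, FlagData M d (F j) (x j)) (v : Vx d) : el x v ∈ M.E :=
  (hF v.1).mem _ v.2.2

theorem exists_next (hF : ∀ j, FlagData M d (F j) (x j)) (v : Vx d) :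
    ∃ b : Fin d, Lev M (F (v.1 + 1)) (fl F v) (el x v) b := by
  have h1 : el x v ∉ M.closure (fl F v) := by
    have h2 : M.closure (fl F v) = fl F v := by
      unfold fl
      rcases v with ⟨j, ⟨i, hi⟩⟩
      cases i with
      | zero => simp only [(hF j).zero, M.closure_closure]
      | succ i => simp only [(hF j).succ i (by omega), M.closure_closure]
    rw [h2]
    exact (hF v.1).notMem _ v.2.2
  obtain ⟨b, hb, hl⟩ := (hF (v.1 + 1)).exists_lev (el_mem hF v) h1
  exact ⟨⟨b, hb⟩, hl⟩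

/-- the next vertex -/
noncomputable def nx (hF : ∀ j, FlagData M d (F j) (x j)) (v : Vx d) : Vx d :=
  (v.1 + 1, (exists_next hF v).choose)

theorem nx_spec (hF : ∀ j, FlagData M d (F j) (x j)) (v : Vx d) :
    Lev M (F (nx hF v).1) (fl F v) (el x v) (nx hF v).2 :=
  (exists_next hF v).choose_spec

theorem nx_par (hF : ∀ j, FlagData M d (F j) (x j)) (v : Vx d) :
    Par M (fl F v ∪ fl F (nx hF v)) (el x v) (el x (nx hF v)) :=
  (hF (nx hF v).1).lev_par (nx hF v).2.2 (nx_spec hF v)

theorem nx_injective (hF : ∀ j, FlagData M d (F j) (x j)) : Function.Injective (nx hF) := by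
  intro v w h
  have h1 := nx_spec hF v
  have h2 := nx_spec hF w
  rw [h] at h1
  have hfl : v.1 = w.1 := by
    have : v.1 + 1 = w.1 + 1 := congrArg Prod.fst h
    exact add_right_cancel this
  obtain ⟨j, a⟩ := v
  obtain ⟨j', a'⟩ := w
  simp only at hfl
  subst hfl
  have e1 := (hF j).lev_symm (hF (nx hF (j, a')).1) a.2 (nx hF (j, a')).2.2 h1
  have e2 := (hF j).lev_symm (hF (nx hF (j, a')).1) a'.2 (nx hF (j, a')).2.2 h2
  have := (hF j).lev_unique a.2.le a'.2.le e1 e2
  rw [Prod.mk.injEq]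
  exact ⟨rfl, Fin.ext this⟩

theorem cv_of_par {G H : Set α} {e : α} {v : Vx d} (hH : Hyp M H) (hG : G ⊆ H) (he : e ∉ H)
    (hv : fl F v ⊆ H) (hp : Par M G e (el x v)) : Cv F x M H v :=
  ⟨hH, hv, fun h => he ((hp.mem_iff hH hG).2 h)⟩

theorem cv_pair (hF : ∀ j, FlagData M d (F j) (x j)) (v : Vx d) :
    ∃ H, Cv F x M H v ∧ Cv F x M H (nx hF v) := by
  have hp := nx_par hF v
  obtain ⟨H, hH, hs, he⟩ := exists_hyp (union_subset (fl_subset hF v) (fl_subset hF _))
    (el_mem hF v) hp.1
  exact ⟨H, ⟨hH, subset_union_left.trans hs, he⟩,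
    cv_of_par hH hs he (subset_union_right.trans hs) hp⟩

/-- a good vertex: its triangle is covered by one hyperplane -/
def Good (hF : ∀ j, FlagData M d (F j) (x j)) (v : Vx d) : Prop :=
  nx hF (nx hF (nx hF v)) = v ∧
    ∃ H, Cv F x M H v ∧ Cv F x M H (nx hF v) ∧ Cv F x M H (nx hF (nx hF v))

theorem Good.next {hF : ∀ j, FlagData M d (F j) (x j)} {v : Vx d} (h : Good hF v) :
    Good hF (nx hF v) := by
  obtain ⟨h1, H, h2, h3, h4⟩ := h
  refine ⟨by rw [h1], H, h3, h4, by rw [h1]; exact h2⟩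

/-- The lower vertex of a bad vertex. -/
theorem exists_lower (hF : ∀ j, FlagData M d (F j) (x j)) (v : Vx d)
    (h3 : nx hF (nx hF (nx hF v)) = v) (hb : ¬ Good hF v) :
    ∃ a' : Fin d, a' < v.2 ∧ Lev M (F v.1) (fl F (nx hF v) ∪ fl F (nx hF (nx hF v)))
      (el x (nx hF v)) a' := by
  set v1 := nx hF v with hv1
  set v2 := nx hF v1 with hv2
  have p1 : Par M (fl F v ∪ fl F v1) (el x v) (el x v1) := nx_par hF v
  have p2 : Par M (fl F v1 ∪ fl F v2) (el x v1) (el x v2) := nx_par hF v1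
  obtain ⟨a', ha', hl⟩ := (hF v.1).exists_lev (el_mem hF v1) p2.1
  refine ⟨⟨a', ha'⟩, ?_, hl⟩
  have key : el x v1 ∈ M.closure (fl F v1 ∪ fl F v2 ∪ F v.1 v.2) := by
    by_contra hcon
    apply hb
    refine ⟨h3, ?_⟩
    obtain ⟨H, hH, hs, he⟩ := exists_hyp (union_subset (union_subset (fl_subset hF v1)
      (fl_subset hF v2)) (fl_subset hF v)) (el_mem hF v1) hcon
    have s1 : fl F v1 ⊆ H := (subset_union_left.trans subset_union_left).trans hs
    have s2 : fl F v2 ⊆ H := (subset_union_right.trans subset_union_left).trans hs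
    have s0 : fl F v ⊆ H := subset_union_right.trans hs
    refine ⟨H, cv_of_par hH (union_subset s0 s1) he s0 p1.symm, ⟨hH, s1, he⟩, ?_⟩
    exact cv_of_par hH (union_subset s1 s2) he s2 p2
  exact (hF v.1).lev_lt ha'.le hl key

/-- The lower vertex of a vertex (only meaningful for bad vertices). -/
noncomputable def low (hF : ∀ j, FlagData M d (F j) (x j)) (v : Vx d) : Vx d := by
  classical
  exact if h : nx hF (nx hF (nx hF v)) = v ∧ ¬ Good hF v then
    (v.1, (exists_lower hF v h.1 h.2).choose) else v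

theorem low_fst (hF : ∀ j, FlagData M d (F j) (x j)) (v : Vx d) : (low hF v).1 = v.1 := by
  unfold low
  split_ifs <;> rfl

theorem low_spec (hF : ∀ j, FlagData M d (F j) (x j)) {v : Vx d}
    (h3 : nx hF (nx hF (nx hF v)) = v) (hb : ¬ Good hF v) :
    (low hF v).2 < v.2 ∧ Par M (fl F (nx hF v) ∪ fl F (nx hF (nx hF v)) ∪ fl F (low hF v))
      (el x (nx hF v)) (el x (low hF v)) := by
  have hs := (exists_lower hF v h3 hb).choose_spec
  have e : low hF v = (v.1, (exists_lower hF v h3 hb).choose) := by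
    unfold low
    rw [dif_pos ⟨h3, hb⟩]
  rw [e]
  exact ⟨hs.1, (hF v.1).lev_par (Fin.is_lt _) hs.2⟩

theorem low_ne (hF : ∀ j, FlagData M d (F j) (x j)) {v : Vx d}
    (h3 : nx hF (nx hF (nx hF v)) = v) (hb : ¬ Good hF v) : low hF v ≠ v := by
  intro h
  have := (low_spec hF h3 hb).1
  rw [h] at this
  exact lt_irrefl _ this

/-- The hyperplane through the lower vertex. -/
theorem low_cover (hF : ∀ j, FlagData M d (F j) (x j)) {v : Vx d}
    (h3 : nx hF (nx hF (nx hF v)) = v) (hb : ¬ Good hF v) :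
    ∃ H, Cv F x M H (low hF v) ∧ Cv F x M H (nx hF v) ∧ Cv F x M H (nx hF (nx hF v)) := by
  have hp := (low_spec hF h3 hb).2
  have p2 : Par M (fl F (nx hF v) ∪ fl F (nx hF (nx hF v))) (el x (nx hF v))
    (el x (nx hF (nx hF v))) := nx_par hF (nx hF v)
  obtain ⟨H, hH, hs, he⟩ := exists_hyp (union_subset (union_subset (fl_subset hF _)
      (fl_subset hF _)) (fl_subset hF _)) (el_mem hF (nx hF v)) hp.1
  have s1 : fl F (nx hF v) ⊆ H := (subset_union_left.trans subset_union_left).trans hs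
  have s2 : fl F (nx hF (nx hF v)) ⊆ H := (subset_union_right.trans subset_union_left).trans hs
  have s0 : fl F (low hF v) ⊆ H := subset_union_right.trans hs
  exact ⟨H, cv_of_par hH hs he s0 hp, ⟨hH, s1, he⟩, cv_of_par hH (union_subset s1 s2) he s2 p2⟩

theorem low_aux (hF : ∀ j, FlagData M d (F j) (x j)) {v w : Vx d}
    (h3 : nx hF (nx hF (nx hF v)) = v) (hb : ¬ Good hF v)
    (h3' : nx hF (nx hF (nx hF w)) = w) (hb' : ¬ Good hF w)
    (hlow : low hF v = low hF w) (hlt : (nx hF v).2 < (nx hF w).2) (hvw : v ≠ w) :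
    ∃ H, Cv F x M H (nx hF v) ∧ Cv F x M H (nx hF (nx hF w)) := by
  have hfst : v.1 = w.1 := by rw [← low_fst hF v, hlow, low_fst]
  have f1 : (nx hF v).1 = (nx hF w).1 := by
    show v.1 + 1 = w.1 + 1
    rw [hfst]
  have f2 : (nx hF (nx hF v)).1 = (nx hF (nx hF w)).1 := by
    show (nx hF v).1 + 1 = (nx hF w).1 + 1
    rw [f1]
  have hp := (low_spec hF h3 hb).2
  have hp' := (low_spec hF h3' hb').2
  rw [← hlow] at hp'
  have hle1 : fl F (nx hF v) ⊆ fl F (nx hF w) := by
    unfold fl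
    rw [f1]
    exact (hF _).mono (Fin.le_def.1 hlt.le) (nx hF w).2.2.le
  have hmem : el x (nx hF v) ∈ fl F (nx hF w) := by
    unfold fl el
    rw [f1]
    exact (hF _).el_mem_of_lt (Fin.lt_def.1 hlt) (nx hF w).2.2.le
  have hne2 : (nx hF (nx hF v)).2 ≠ (nx hF (nx hF w)).2 := by
    intro h
    exact hvw (nx_injective hF (nx_injective hF (Prod.ext f2 h)))
  have hgt : (nx hF (nx hF w)).2 < (nx hF (nx hF v)).2 := by
    rcases lt_or_gt_of_ne hne2 with h | h
    · exfalso
      have hle2 : fl F (nx hF (nx hF v)) ⊆ fl F (nx hF (nx hF w)) := by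
        unfold fl
        rw [f2]
        exact (hF _).mono (Fin.le_def.1 h.le) (nx hF (nx hF w)).2.2.le
      apply hp'.2.1
      refine M.closure_subset_closure ?_ hp.2.2.2
      apply insert_subset
      · exact Or.inl (Or.inl hmem)
      · exact union_subset_union_left _ (union_subset_union hle1 hle2)
    · exact h
  have hle2 : fl F (nx hF (nx hF w)) ⊆ fl F (nx hF (nx hF v)) := by
    unfold fl
    rw [← f2]
    exact (hF _).mono (Fin.le_def.1 hgt.le) (nx hF (nx hF v)).2.2.le
  obtain ⟨H1, c1, c2, c3⟩ := low_cover hF h3 hb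
  obtain ⟨H2, c1', c2', c3'⟩ := low_cover hF h3' hb'
  rw [← hlow] at c1'
  obtain ⟨H, hH, hG, hv, hw⟩ := hyp_trans (M := M)
    (G := fl F (nx hF v) ∪ fl F (nx hF (nx hF w)))
    (u := el x (low hF v)) (v := el x (nx hF v)) (w := el x (nx hF (nx hF w)))
    (el_mem hF _)
    ⟨H1, c1.1, union_subset c2.2.1 (hle2.trans c3.2.1), c2.2.2, c1.2.2⟩
    ⟨H2, c1'.1, union_subset (hle1.trans c2'.2.1) c3'.2.1, c3'.2.2, c1'.2.2⟩
  exact ⟨H, ⟨hH, subset_union_left.trans hG, hv⟩, ⟨hH, subset_union_right.trans hG, hw⟩⟩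

end Three

end Pool.Agent.H115F
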