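import Pool.Agent.H115F.Flags
import Pool.Agent.H115F.Comb

/-!
# Covering one, two, three and many flags by hyperplanes
-/

namespace Pool.Agent.H115F

open Set

variable {α : Type*} {M : Matroid α}

/-- all levels of the flag are covered by the family -/
def CovFlag (d : ℕ) (F : ℕ → Set α) (x : ℕ → α) (𝓗 : Finset (Set α)) : Prop :=
  ∀ i < d, ∃ H ∈ 𝓗, F i ⊆ H ∧ x i ∉ H

theorem CovFlag.mono {d : ℕ} {F : ℕ → Set α} {x : ℕ → α} {𝓗 𝓗' : Finset (Set α)}
    (h : CovFlag d F x 𝓗) (hs : 𝓗 ⊆ 𝓗') : CovFlag d F x 𝓗' := by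
  intro i hi
  obtain ⟨H, hH, h1⟩ := h i hi
  exact ⟨H, hs hH, h1⟩

theorem FlagData.closure_eq {d : ℕ} {F : ℕ → Set α} {x : ℕ → α} (h : FlagData M d F x) {i : ℕ}
    (hi : i ≤ d) : M.closure (F i) = F i := by
  cases i with
  | zero => rw [h.zero, M.closure_closure]
  | succ i => rw [h.succ i (by omega), M.closure_closure]

/-- one flag -/
theorem cov_one {d : ℕ} {F : ℕ → Set α} {x : ℕ → α} (h : FlagData M d F x) :
    ∃ 𝓗 : Finset (Set α), (∀ H ∈ 𝓗, Hyp M H) ∧ 𝓗.card ≤ d ∧ CovFlag d F x 𝓗 := by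
  classical
  have hex : ∀ i : Fin d, ∃ H, Hyp M H ∧ F i ⊆ H ∧ x i ∉ H := by
    intro i
    refine exists_hyp (h.subset_ground i.2.le) (h.mem i i.2) ?_
    rw [h.closure_eq i.2.le]
    exact h.notMem i i.2
  choose H h1 h2 h3 using hex
  refine ⟨Finset.univ.image H, ?_, ?_, ?_⟩
  · intro K hK
    obtain ⟨i, _, rfl⟩ := Finset.mem_image.1 hK
    exact h1 i
  · exact Finset.card_image_le.trans (by simp)
  · intro i hi
    exact ⟨H ⟨i, hi⟩, Finset.mem_image_of_mem _ (Finset.mem_univ _), h2 ⟨i, hi⟩, h3 ⟨i, hi⟩⟩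

/-- two flags -/
theorem cov_two {d : ℕ} {F F' : ℕ → Set α} {x x' : ℕ → α} (h : FlagData M d F x)
    (h' : FlagData M d F' x') :
    ∃ 𝓗 : Finset (Set α), (∀ H ∈ 𝓗, Hyp M H) ∧ 𝓗.card ≤ d ∧ CovFlag d F x 𝓗 ∧
      CovFlag d F' x' 𝓗 := by
  classical
  have hex : ∀ a : Fin d, ∃ H, Hyp M H ∧ F a ⊆ H ∧ x a ∉ H ∧
      ∀ b < d, Lev M F' (F a) (x a) b → F' b ⊆ H ∧ x' b ∉ H := by
    intro a
    have h0 : x a ∉ M.closure (F a) := by
      rw [h.closure_eq a.2.le]; exact h.notMem a a.2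
    obtain ⟨b, hb, hl⟩ := h'.exists_lev (h.mem a a.2) h0
    obtain ⟨H, hH, hs, hn⟩ := exists_hyp (union_subset (h.subset_ground a.2.le)
      (h'.subset_ground hb.le)) (h.mem a a.2) hl.1
    refine ⟨H, hH, subset_union_left.trans hs, hn, ?_⟩
    intro b' hb' hl'
    have : b' = b := h'.lev_unique hb'.le hb.le hl' hl
    subst this
    refine ⟨subset_union_right.trans hs, ?_⟩
    intro hx
    exact hn (((h'.lev_par hb' hl).mem_iff hH hs).2 hx)
  choose H h1 h2 h3 h4 using hex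
  refine ⟨Finset.univ.image H, ?_, ?_, ?_, ?_⟩
  · intro K hK
    obtain ⟨i, _, rfl⟩ := Finset.mem_image.1 hK
    exact h1 i
  · exact Finset.card_image_le.trans (by simp)
  · intro i hi
    exact ⟨H ⟨i, hi⟩, Finset.mem_image_of_mem _ (Finset.mem_univ _), h2 ⟨i, hi⟩, h3 ⟨i, hi⟩⟩
  · intro b hb
    have h0 : x' b ∉ M.closure (F' b) := by
      rw [h'.closure_eq hb.le]; exact h'.notMem b hb
    obtain ⟨a, ha, hl⟩ := h.exists_lev (h'.mem b hb) h0
    have hl' := h'.lev_symm h hb ha hl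
    exact ⟨H ⟨a, ha⟩, Finset.mem_image_of_mem _ (Finset.mem_univ _), h4 ⟨a, ha⟩ b hb hl'⟩

/-- three flags -/
theorem cov_three [M.Finite] {d : ℕ} {F : ZMod 3 → ℕ → Set α} {x : ZMod 3 → ℕ → α}
    (hF : ∀ j, FlagData M d (F j) (x j)) :
    ∃ 𝓗 : Finset (Set α), (∀ H ∈ 𝓗, Hyp M H) ∧ 3 * 𝓗.card ≤ 5 * d ∧
      ∀ j, CovFlag d (F j) (x j) 𝓗 := by
  classical
  let G : SimpleGraph (Vx d) :=
    { Adj := fun v w => v ≠ w ∧ ∃ H, Cv F x M H v ∧ Cv F x M H w
      symm := ⟨fun v w h => ⟨h.1.symm, h.2.imp fun H hH => ⟨hH.2, hH.1⟩⟩⟩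
      loopless := ⟨fun v h => h.1 rfl⟩ }
  have hs1 : ∀ v, (nx hF v).1 = v.1 + 1 := fun v => rfl
  obtain ⟨P, hP1, hP2, hP3⟩ := cover_bound (nx hF) (nx_injective hF) hs1 G
    (by
      intro v
      refine ⟨fun h => ne_one v.1 ?_, cv_pair hF v⟩
      exact congrArg Prod.fst h)
    (Good hF) (fun v h => h.next) (low hF)
    (by
      intro v h3 hb
      refine ⟨low_fst hF v, low_ne hF h3 hb, ?_, ?_⟩
      · intro h
        apply ne_one v.1
        have h1 := low_fst hF v
        rw [h] at h1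
        exact h1.symm
      · obtain ⟨H, c1, c2, _⟩ := low_cover hF h3 hb
        exact ⟨H, c1, c2⟩)
    (by
      intro v w h3 hb h3' hb' hne hlow
      have hfst : v.1 = w.1 := by rw [← low_fst hF v, hlow, low_fst]
      have hne1 : (nx hF v).2 ≠ (nx hF w).2 := by
        intro h
        apply hne
        apply nx_injective hF
        refine Prod.ext ?_ h
        show v.1 + 1 = w.1 + 1
        rw [hfst]
      rcases lt_or_gt_of_ne hne1 with hlt | hlt
      · obtain ⟨H, c1, c2⟩ := low_aux hF h3 hb h3' hb' hlow hlt hne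
        refine ⟨nx hF v, nx hF (nx hF w), Or.inl rfl, Or.inr rfl, ?_, H, c1, c2⟩
        intro h
        have h1 : v.1 + 1 = w.1 + 1 + 1 := congrArg Prod.fst h
        rw [hfst] at h1
        exact ne_one (w.1 + 1) h1
      · obtain ⟨H, c1, c2⟩ := low_aux hF h3' hb' h3 hb hlow.symm hlt hne.symm
        refine ⟨nx hF (nx hF v), nx hF w, Or.inr rfl, Or.inl rfl, ?_, H, c2, c1⟩
        intro h
        have h1 : v.1 + 1 + 1 = w.1 + 1 := congrArg Prod.fst h
        rw [hfst] at h1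
        exact ne_one (w.1 + 1) h1.symm)
    (fun v h => h.1)
  have hex : ∀ p ∈ P, ∃ H, Hyp M H ∧ ∀ v ∈ p, Cv F x M H v := by
    intro p hp
    rcases hP1 p hp with ⟨v, rfl⟩ | ⟨v, w, ⟨_, H, c1, c2⟩, rfl⟩ | ⟨v, ⟨_, H, c1, c2, c3⟩, rfl⟩
    · obtain ⟨H, c1, _⟩ := cv_pair hF v
      refine ⟨H, c1.1, ?_⟩
      intro u hu
      rw [Finset.mem_singleton] at hu
      rw [hu]; exact c1
    · refine ⟨H, c1.1, ?_⟩
      intro u hu
      simp only [Finset.mem_insert, Finset.mem_singleton] at hu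
      rcases hu with rfl | rfl
      · exact c1
      · exact c2
    · refine ⟨H, c1.1, ?_⟩
      intro u hu
      simp only [Finset.mem_insert, Finset.mem_singleton] at hu
      rcases hu with rfl | rfl | rfl
      · exact c1
      · exact c2
      · exact c3
  choose! H h1 h2 using hex
  refine ⟨P.image H, ?_, ?_, ?_⟩
  · intro K hK
    obtain ⟨p, hp, rfl⟩ := Finset.mem_image.1 hK
    exact h1 p hp
  · have : (P.image H).card ≤ P.card := Finset.card_image_le
    omega
  · intro j i hi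
    obtain ⟨p, hp, hv⟩ := hP2 (j, ⟨i, hi⟩)
    exact ⟨H p, Finset.mem_image_of_mem _ hp, (h2 p hp _ hv).2⟩

/-- an even number of flags -/
theorem cov_even {d : ℕ} {F : ℕ → ℕ → Set α} {x : ℕ → ℕ → α} (k j0 : ℕ)
    (hF : ∀ j, j0 ≤ j → j < j0 + 2 * k → FlagData M d (F j) (x j)) :
    ∃ 𝓗 : Finset (Set α), (∀ H ∈ 𝓗, Hyp M H) ∧ 𝓗.card ≤ k * d ∧
      ∀ j, j0 ≤ j → j < j0 + 2 * k → CovFlag d (F j) (x j) 𝓗 := by
  classical
  induction k with
  | zero => exact ⟨∅, by simp, by simp, fun j h1 h2 => by omega⟩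
  | succ k ih =>
    obtain ⟨A, a1, a2, a3⟩ := ih (fun j h1 h2 => hF j h1 (by omega))
    obtain ⟨B, b1, b2, b3, b4⟩ := cov_two (hF (j0 + 2 * k) (by omega) (by omega))
      (hF (j0 + 2 * k + 1) (by omega) (by omega))
    refine ⟨A ∪ B, ?_, ?_, ?_⟩
    · intro H hH
      rcases Finset.mem_union.1 hH with h | h
      · exact a1 H h
      · exact b1 H h
    · have := Finset.card_union_le A B
      have h2 : (k + 1) * d = k * d + d := by ring
      omega
    · intro j h1 h2
      by_cases h3 : j < j0 + 2 * k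
      · exact (a3 j h1 h3).mono Finset.subset_union_left
      · have h4 : j = j0 + 2 * k ∨ j = j0 + 2 * k + 1 := by omega
        rcases h4 with rfl | rfl
        · exact b3.mono Finset.subset_union_right
        · exact b4.mono Finset.subset_union_right

/-- an odd number, at least three, of flags -/
theorem cov_odd [M.Finite] {d : ℕ} {F : ℕ → ℕ → Set α} {x : ℕ → ℕ → α} (k : ℕ)
    (hF : ∀ j, j < 2 * k + 3 → FlagData M d (F j) (x j)) :
    ∃ 𝓗 : Finset (Set α), (∀ H ∈ 𝓗, Hyp M H) ∧ 𝓗.card ≤ k * d + 5 * d / 3 ∧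
      ∀ j, j < 2 * k + 3 → CovFlag d (F j) (x j) 𝓗 := by
  classical
  obtain ⟨A, a1, a2, a3⟩ := cov_even (M := M) (d := d) (F := F) (x := x) k 3
    (fun j h1 h2 => hF j (by omega))
  obtain ⟨B, b1, b2, b3⟩ := cov_three (M := M) (d := d) (F := fun j => F j.val)
    (x := fun j => x j.val) (fun j => hF j.val (by have := ZMod.val_lt j; omega))
  refine ⟨A ∪ B, ?_, ?_, ?_⟩
  · intro H hH
    rcases Finset.mem_union.1 hH with h | h
    · exact a1 H h
    · exact b1 H h
  · have := Finset.card_union_le A B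
    omega
  · intro j h2
    by_cases h3 : 3 ≤ j
    · exact (a3 j h3 (by omega)).mono Finset.subset_union_left
    · have h4 := b3 (j : ZMod 3)
      have h5 : (j : ZMod 3).val = j := by
        rw [ZMod.val_natCast]; exact Nat.mod_eq_of_lt (by omega)
      simp only [h5] at h4
      exact h4.mono Finset.subset_union_right

/-- a covering family generates the flag -/
theorem generates {d : ℕ} {F : ℕ → Set α} {x : ℕ → α} (h : FlagData M d F x)
    {𝓗 : Finset (Set α)} (hyp : ∀ H ∈ 𝓗, Hyp M H) (hcov : CovFlag d F x 𝓗) :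
    ∀ k ≤ d, F (d - k) = M.E ∩ ⋂₀ {H | H ∈ 𝓗 ∧ F (d - k) ⊆ H} := by
  intro k
  induction k with
  | zero =>
    intro _
    apply subset_antisymm
    · exact subset_inter (h.subset_ground (by omega)) (subset_sInter fun H hH => hH.2)
    · rw [Nat.sub_zero, h.top]; exact inter_subset_left
  | succ k ih =>
    intro hk
    have ih' := ih (by omega)
    apply subset_antisymm
    · exact subset_inter (h.subset_ground (by omega)) (subset_sInter fun H hH => hH.2)
    · intro y hy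
      have hlt : d - (k + 1) < d := by omega
      have he : d - k = d - (k + 1) + 1 := by omega
      have hy1 : y ∈ F (d - (k + 1) + 1) := by
        rw [← he, ih']
        refine ⟨hy.1, ?_⟩
        intro H hH
        apply hy.2
        refine ⟨hH.1, ?_⟩
        refine subset_trans ?_ hH.2
        rw [he]
        exact h.step hlt
      obtain ⟨H, hH, h1, h2⟩ := hcov (d - (k + 1)) hlt
      by_contra hcon
      rw [h.succ _ hlt] at hy1
      have h3 : y ∉ M.closure (F (d - (k + 1))) := by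
        rw [h.closure_eq hlt.le]; exact hcon
      have h4 := Matroid.mem_closure_insert h3 hy1
      have hyH : y ∈ H := hy.2 H ⟨hH, h1⟩
      exact h2 ((hyp H hH).closure_subset (insert_subset hyH h1) h4)

end Pool.Agent.H115F
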