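import Mathlib

/-!
# Hyperplanes of matroids: existence, elimination, transitivity
-/

namespace Pool.Agent.H115F

open Set

variable {α : Type*} {M : Matroid α}

/-- A hyperplane: a flat of rank one less than the rank of the matroid. -/
def Hyp (M : Matroid α) (H : Set α) : Prop := M.IsFlat H ∧ M.eRk H + 1 = M.eRank

theorem Hyp.closure_eq {H : Set α} (h : Hyp M H) : M.closure H = H := h.1.closure

theorem Hyp.closure_subset {H X : Set α} (h : Hyp M H) (hX : X ⊆ H) : M.closure X ⊆ H := by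
  rw [← h.closure_eq]; exact M.closure_subset_closure hX

theorem Hyp.eq_of_subset [M.RankFinite] {H H' : Set α} (h : Hyp M H) (h' : Hyp M H')
    (hs : H ⊆ H') : H = H' := by
  have hr : M.eRk H' ≤ M.eRk H := by
    have h1 : M.eRk H + 1 = M.eRk H' + 1 := h.2.trans h'.2.symm
    have : M.eRk H = M.eRk H' := by
      have h2 : M.eRk H ≠ ⊤ := M.eRk_ne_top_iff.2 (M.isRkFinite_set H)
      have h3 : M.eRk H' ≠ ⊤ := M.eRk_ne_top_iff.2 (M.isRkFinite_set H')
      lift M.eRk H to ℕ using h2 with a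
      lift M.eRk H' to ℕ using h3 with b
      norm_cast at h1 ⊢
      omega
    exact this.ge
  have := (M.isRkFinite_set H).closure_eq_closure_of_subset_of_eRk_ge_eRk hs hr
  rwa [h.closure_eq, h'.closure_eq] at this

/-- A point outside the closure of `X` is avoided by a hyperplane containing `X`. -/
theorem exists_hyp {X : Set α} {e : α} (hX : X ⊆ M.E) (he : e ∈ M.E) (heX : e ∉ M.closure X) :
    ∃ H, Hyp M H ∧ X ⊆ H ∧ e ∉ H := by
  obtain ⟨I, hI⟩ := M.exists_isBasis X hX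
  have heI : e ∉ M.closure I := by rwa [hI.closure_eq_closure]
  have hins : M.Indep (insert e I) := by
    rw [hI.indep.insert_indep_iff]
    exact Or.inl ⟨he, heI⟩
  obtain ⟨B, hB, hIB⟩ := hins.exists_isBase_superset
  have heB : e ∈ B := hIB (mem_insert _ _)
  have heI' : e ∉ I := fun h => heX (M.subset_closure X hX (hI.subset h))
  refine ⟨M.closure (B \ {e}), ⟨M.isFlat_closure _, ?_⟩, ?_, ?_⟩
  · rw [M.eRk_closure_eq, (hB.indep.subset sdiff_subset).eRk_eq_encard,
      encard_sdiff_singleton_add_one heB, hB.encard_eq_eRank]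
  · refine (hI.subset_closure).trans (M.closure_subset_closure ?_)
    intro x hx
    refine ⟨hIB (mem_insert_of_mem _ hx), ?_⟩
    rintro rfl
    exact heI' hx
  · exact hB.indep.notMem_closure_sdiff_of_mem heB

/-- hyperplane elimination -/
theorem hyp_elim {A B : Set α} (hA : Hyp M A) (hB : Hyp M B) {x y : α} (hx : x ∈ M.E)
    (hxB : x ∉ B) (hyB : y ∈ B) (hyA : y ∉ A) :
    ∃ C, Hyp M C ∧ A ∩ B ⊆ C ∧ x ∈ C ∧ y ∉ C := by
  have hfl : M.closure (A ∩ B) = A ∩ B := by
    apply subset_antisymm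
    · exact subset_inter (hA.closure_subset inter_subset_left)
        (hB.closure_subset inter_subset_right)
    · exact M.subset_closure _ (inter_subset_left.trans hA.1.subset_ground)
  have hyn : y ∉ M.closure (insert x (A ∩ B)) := by
    intro h
    have h1 : y ∉ M.closure (A ∩ B) := by rw [hfl]; exact fun h => hyA h.1
    have h2 := Matroid.mem_closure_insert h1 h
    exact hxB (hB.closure_subset (insert_subset hyB inter_subset_right) h2)
  obtain ⟨C, hC, hs, hy⟩ := exists_hyp (M := M)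
    (insert_subset hx (inter_subset_left.trans hA.1.subset_ground))
    (hB.1.subset_ground hyB) hyn
  exact ⟨C, hC, (subset_insert _ _).trans hs, hs (mem_insert _ _), hy⟩

/-- Transitivity of being avoided together: if `v, u` are avoided by a hyperplane containing `G`
and `w, u` are avoided by a hyperplane containing `G`, so are `v, w`. -/
theorem hyp_trans [M.Finite] {G : Set α} {u v w : α} (hu : u ∈ M.E)
    (h1 : ∃ H, Hyp M H ∧ G ⊆ H ∧ v ∉ H ∧ u ∉ H) (h2 : ∃ H, Hyp M H ∧ G ⊆ H ∧ w ∉ H ∧ u ∉ H) :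
    ∃ H, Hyp M H ∧ G ⊆ H ∧ v ∉ H ∧ w ∉ H := by
  classical
  by_contra hcon
  push Not at hcon
  -- pairs
  let S : Set (Set α × Set α) := {p | Hyp M p.1 ∧ Hyp M p.2 ∧ G ⊆ p.1 ∧ G ⊆ p.2 ∧ v ∉ p.1 ∧
    w ∉ p.2 ∧ ∃ z ∈ M.E, z ∉ p.1 ∧ z ∉ p.2}
  have hSfin : S.Finite := by
    refine Set.Finite.subset ((M.ground_finite.finite_subsets).prod
      (M.ground_finite.finite_subsets)) ?_
    rintro ⟨A, B⟩ hp
    exact ⟨hp.1.1.subset_ground, hp.2.1.1.subset_ground⟩
  have hSne : S.Nonempty := by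
    obtain ⟨A, hA, hGA, hvA, huA⟩ := h1
    obtain ⟨B, hB, hGB, hwB, huB⟩ := h2
    exact ⟨(A, B), hA, hB, hGA, hGB, hvA, hwB, u, hu, huA, huB⟩
  obtain ⟨⟨A, B⟩, hAB, hmax⟩ := hSfin.exists_maximalFor (fun p => (p.1 ∩ p.2).ncard) S hSne
  obtain ⟨hA, hB, hGA, hGB, hvA, hwB, z0, hz0, hz0A, hz0B⟩ := hAB
  simp only at hA hB hGA hGB hvA hwB hz0A hz0B
  have hmax' : ∀ C D : Set α, (C, D) ∈ S → (A ∩ B).ncard ≤ (C ∩ D).ncard →
      (C ∩ D).ncard ≤ (A ∩ B).ncard := by
    intro C D hCD hle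
    exact hmax hCD hle
  have hwA : w ∈ A := hcon A hA hGA hvA
  have hvB : v ∈ B := by
    by_contra h
    exact hwB (hcon B hB hGB h)
  obtain ⟨C, hC, hABC, hz0C, hvC⟩ := hyp_elim hA hB hz0 hz0B hvB hvA
  have hGC : G ⊆ C := (subset_inter hGA hGB).trans hABC
  have hwC : w ∈ C := hcon C hC hGC hvC
  obtain ⟨z, hzA, hzB, hzC⟩ : ∃ z ∈ A, z ∉ B ∧ z ∉ C := by
    by_contra h
    push Not at h
    have hAC : A ⊆ C := by
      intro a ha
      by_cases hb : a ∈ B
      · exact hABC ⟨ha, hb⟩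
      · exact h a ha hb
    have := hA.eq_of_subset hC hAC
    exact hz0A (this ▸ hz0C)
  have hzE : z ∈ M.E := hA.1.subset_ground hzA
  have hfin : ∀ X Y : Set α, Hyp M X → (X ∩ Y).Finite := fun X Y hX =>
    M.ground_finite.subset (inter_subset_left.trans hX.1.subset_ground)
  have hsub1 : A ∩ B ⊆ C ∩ B := subset_inter hABC inter_subset_right
  have hCB : (C ∩ B).ncard ≤ (A ∩ B).ncard :=
    hmax' C B ⟨hC, hB, hGC, hGB, hvC, hwB, z, hzE, hzC, hzB⟩
      (Set.ncard_le_ncard hsub1 (hfin C B hC))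
  have heq : A ∩ B = C ∩ B := Set.eq_of_subset_of_ncard_le hsub1 hCB (hfin C B hC)
  obtain ⟨D, hD, hBCD, hzD, hwD⟩ := hyp_elim hB hC hzE hzC hwC hwB
  have hABD : A ∩ B ⊆ D := by
    rw [heq, inter_comm]; exact hBCD
  have hGD : G ⊆ D := (subset_inter hGA hGB).trans hABD
  have hvD : v ∈ D := by
    by_contra h
    exact hwD (hcon D hD hGD h)
  obtain ⟨y, hyE, hyA, hyD⟩ : ∃ y ∈ M.E, y ∉ A ∧ y ∉ D := by
    by_contra h
    push Not at h
    have hBD : B ⊆ D := by
      intro b hb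
      by_contra hbD
      have : b ∈ A := by
        by_contra hbA
        exact hbD (h b (hB.1.subset_ground hb) hbA)
      exact hbD (hABD ⟨this, hb⟩)
    have := hB.eq_of_subset hD hBD
    exact hzB (this ▸ hzD)
  have hlt : (A ∩ B).ncard < (A ∩ D).ncard := by
    apply Set.ncard_lt_ncard _ (hfin A D hA)
    refine ⟨subset_inter inter_subset_left hABD, ?_⟩
    intro h
    exact hzB (h ⟨hzA, hzD⟩).2
  have := hmax' A D ⟨hA, hD, hGA, hGD, hvA, hwD, y, hyE, hyA, hyD⟩ hlt.le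
  omega

end Pool.Agent.H115F
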